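import Mathlib
import Pool.Agent.Lib.MP_9035cc_co.Def
import Pool.Agent.Lib.MP_9035cc_co.Sound

/-!
There is an equivelar manifold of type `{3, 18; 37}` in Euclidean 3-space with 36 vertices.
This disproves the statement that every equivelar manifold with fewer vertices than its genus
has genus at least 577 and at least 576 vertices.

The vertices used in the proof are, up to a translation, the orbits of `(24, -7, -5)`,
`(-9, -30, 12)` and `(10, 3, 1)` under the rotation group of the regular tetrahedron (cyclic
permutations and even sign changes of the coordinates), and the 216 faces are invariant under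
this group as well.
-/

namespace Pool.Agent.Results.MP_9035cc_co.SmallEquivelar

open Pool.Agent.Lib.MP_9035cc_co

/-- There is an equivelar manifold of type `{3, 18; 37}` in Euclidean 3-space with 36 vertices;
so it is not true that every equivelar manifold with fewer vertices than its genus has genus at
least 577 and at least 576 vertices (not even for triangular faces). -/
theorem result :
    (∃ (pos : Fin 36 → E3) (faces : Finset (Finset (Fin 36))),
      IsEquivelarTri 36 18 37 pos faces) ∧
    ¬ (∀ (n q g : ℕ) (pos : Fin n → E3) (faces : Finset (Finset (Fin n))),
      IsEquivelarTri n q g pos faces → n < g → 577 ≤ g ∧ 576 ≤ n) := by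
  have hV : nV = 36 := rfl
  have key : ∃ (pos : Fin 36 → E3) (faces : Finset (Finset (Fin 36))),
      IsEquivelarTri 36 18 37 pos faces :=
    ⟨_, _, main (g := 37) (by decide)⟩
  refine ⟨key, ?_⟩
  intro h
  obtain ⟨pos, faces, hp⟩ := key
  have := h 36 18 37 pos faces hp (by norm_num)
  omega

end Pool.Agent.Results.MP_9035cc_co.SmallEquivelar
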